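import Pool.Agent.H547.C9.Stm3

/-!
# The relation over dual numbers (S_E1)
-/

set_option autoImplicit false

namespace Pool.Agent.H650.C9

open Finset Pool.Agent.H547.P3 Pool.Agent.H547.P4 Pool.Agent.H547.C9

section

variable {A : Type} [CommRing A]

theorem one_add_eps_pow {ε : A} (hε : ε ^ 2 = 0) (c : A) (k : ℕ) :
    (1 + c * ε) ^ k = 1 + (k : A) * c * ε := by
  induction k with
  | zero => simp
  | succ k ih =>
    rw [pow_succ, ih]
    push_cast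
    linear_combination ((k : A) * c ^ 2) * hε

end

/-- the real part of the `S`-family -/
noncomputable def S0 (p : ℕ) (z : ZMod (p ^ 3)) (κ : ℕ) : ZMod (p ^ 3) :=
  (z ^ (p - 1)) ^ κ * ∑ j ∈ range p, Gu p j κ * z ^ j

/-- the derivative of the `S`-family -/
noncomputable def S1 (p : ℕ) (z : ZMod (p ^ 3)) (κ : ℕ) : ZMod (p ^ 3) :=
  (z ^ (p - 1)) ^ κ * ∑ j ∈ range p, ((p : ZMod (p ^ 3)) * (κ : ZMod (p ^ 3)) + (j : ZMod (p ^ 3))) *
    (Gu p j κ * z ^ j)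

theorem WS_eq (p : ℕ) (a b z : ZMod (p ^ 3)) (κ : ℕ) :
    WS p a b z κ = a * S1 p z κ + b * S0 p z κ := by
  unfold WS S1 S0
  have h : ∀ j ∈ range p, (a * ((p : ZMod (p ^ 3)) * (κ : ZMod (p ^ 3)) + (j : ZMod (p ^ 3))) + b) *
      (Gu p j κ * z ^ j) = a * (((p : ZMod (p ^ 3)) * (κ : ZMod (p ^ 3)) + (j : ZMod (p ^ 3))) *
      (Gu p j κ * z ^ j)) + b * (Gu p j κ * z ^ j) := fun j _ => by ring
  rw [sum_congr rfl h, sum_add_distrib, ← mul_sum, ← mul_sum]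
  ring

theorem c2_WS (p : ℕ) (h a b z : ZMod (p ^ 3)) :
    c2 h (WS p a b z) = a * c2 h (S1 p z) + b * c2 h (S0 p z) := by
  unfold c2
  rw [WS_eq, WS_eq, WS_eq]
  ring

theorem c1_WS (p : ℕ) (h a b z : ZMod (p ^ 3)) :
    c1 h (WS p a b z) = a * c1 h (S1 p z) + b * c1 h (S0 p z) := by
  unfold c1
  rw [c2_WS, WS_eq, WS_eq]
  ring

section

variable {p : ℕ} [hp : Fact p.Prime] {n : ℕ} {A : Type} [CommRing A] (φ : ZMod (p ^ 3) →+* A)

theorem gS_dual {ε : A} (hε : ε ^ 2 = 0) (z : ZMod (p ^ 3)) (κ : ℕ) :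
    gS φ (φ (z ^ (p - 1)) * (1 + p * ε)) (φ z * (1 + ε)) κ =
      φ (S0 p z κ) + φ (S1 p z κ) * ε := by
  unfold gS fam S0 S1
  have h1 : ∀ j ∈ range p, φ (Gu p j κ) * (φ z * (1 + ε)) ^ j =
      φ (Gu p j κ * z ^ j) + φ ((j : ZMod (p ^ 3)) * (Gu p j κ * z ^ j)) * ε := by
    intro j _
    have h2 := one_add_eps_pow hε 1 j
    rw [one_mul, mul_one] at h2
    rw [mul_pow, h2]
    simp only [map_mul, map_pow, map_natCast]
    ring
  have h3 : (φ (z ^ (p - 1)) * (1 + p * ε)) ^ κ =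
      φ ((z ^ (p - 1)) ^ κ) * (1 + (κ : A) * p * ε) := by
    rw [mul_pow, one_add_eps_pow hε, map_pow φ _ κ]
  rw [sum_congr rfl h1, sum_add_distrib, ← sum_mul, ← map_sum, ← map_sum, h3]
  have h4 : ∑ j ∈ range p, ((p : ZMod (p ^ 3)) * (κ : ZMod (p ^ 3)) + (j : ZMod (p ^ 3))) *
      (Gu p j κ * z ^ j) = (p : ZMod (p ^ 3)) * κ * ∑ j ∈ range p, Gu p j κ * z ^ j +
      ∑ j ∈ range p, (j : ZMod (p ^ 3)) * (Gu p j κ * z ^ j) := by
    rw [mul_sum, ← sum_add_distrib]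
    exact sum_congr rfl fun j _ => by ring
  rw [h4]
  generalize ∑ j ∈ range p, Gu p j κ * z ^ j = s
  generalize ∑ j ∈ range p, (j : ZMod (p ^ 3)) * (Gu p j κ * z ^ j) = t
  simp only [map_mul, map_add, map_natCast]
  linear_combination (φ ((z ^ (p - 1)) ^ κ) * κ * p * φ t) * hε

theorem gT_dual (hp5 : 5 ≤ p) {ε : A} (hε : ε ^ 2 = 0) (E : A) (w τ : ZMod (p ^ 3)) :
    gT1 φ E (φ w * (1 + φ τ * ε)) 0 =
      φ (∑ j ∈ range p, (v1 j : ZMod (p ^ 3)) * w ^ j) +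
      φ (τ * ∑ j ∈ range p, (j : ZMod (p ^ 3)) * ((v1 j : ZMod (p ^ 3)) * w ^ j)) * ε := by
  unfold gT1 fam
  have h0 : ∀ j ∈ range p, H1 p j 0 = (v1 j : ZMod (p ^ 3)) := by
    intro j hj
    have h := H1_spec (p := p) hp5 0 j (mem_range.mp hj)
    have h2 : (v1 0 : ZMod (p ^ 3)) = 1 := by
      have : v1 0 = 1 := by
        unfold v1
        simp
      rw [this, Nat.cast_one]
    rw [h2, one_mul, mul_zero, zero_add] at h
    exact h.symm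
  have h1 : ∀ j ∈ range p, φ (H1 p j 0) * (φ w * (1 + φ τ * ε)) ^ j =
      φ ((v1 j : ZMod (p ^ 3)) * w ^ j) +
      φ (τ * ((j : ZMod (p ^ 3)) * ((v1 j : ZMod (p ^ 3)) * w ^ j))) * ε := by
    intro j hj
    rw [h0 j hj, mul_pow, one_add_eps_pow hε]
    simp only [map_mul, map_pow, map_natCast]
    ring
  rw [sum_congr rfl h1, sum_add_distrib, ← sum_mul, ← map_sum, ← map_sum, pow_zero, one_mul, mul_sum]

theorem c2_gS_dual {ε : A} (hε : ε ^ 2 = 0) (h z : ZMod (p ^ 3)) :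
    c2 (φ h) (gS φ (φ (z ^ (p - 1)) * (1 + p * ε)) (φ z * (1 + ε))) =
      φ (c2 h (S0 p z)) + φ (c2 h (S1 p z)) * ε := by
  unfold c2
  rw [gS_dual φ hε, gS_dual φ hε, gS_dual φ hε]
  simp only [map_mul, map_add, map_sub, map_ofNat]
  ring

theorem c1_gS_dual {ε : A} (hε : ε ^ 2 = 0) (h z : ZMod (p ^ 3)) :
    c1 (φ h) (gS φ (φ (z ^ (p - 1)) * (1 + p * ε)) (φ z * (1 + ε))) =
      φ (c1 h (S0 p z)) + φ (c1 h (S1 p z)) * ε := by
  unfold c1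
  rw [c2_gS_dual φ hε, gS_dual φ hε, gS_dual φ hε]
  simp only [map_add, map_sub]
  ring

theorem key (ψ : A →+* ZMod (p ^ 3)) {ε : A} (hε : ε ^ 2 = 0) (hψ : ∀ α, ψ (φ α) = α)
    (hψε : ψ ε = 0) (hdec : ∀ a : A, ∃ α β, a = φ α + φ β * ε)
    (hinj : ∀ α β γ δ, φ α + φ β * ε = φ γ + φ δ * ε → α = γ ∧ β = δ)
    (h z l li : ZMod (p ^ 3)) (hp53 : 53 ≤ p) (hn : p = 2 * n + 1) (hh : 2 * h = 1)
    (hz : IsUnit z) (hl : l = 1 - 16 * z) (hli : l * li = 1) :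
    ∃ x : ZMod (p ^ 3), x ^ 2 = 1 ∧ red p x = (red p l) ^ n ∧
    ∀ a b a' b' : ZMod (p ^ 3), a * (2 + 16 * z) = a' * l → b = b' - 8 * z * li * a →
    ∑ j ∈ range p, (a' * (j : ZMod (p ^ 3)) + b') * ((v1 j : ZMod (p ^ 3)) * (z ^ 2 * li ^ 3) ^ j) =
      x * (WS p a b z 0 + 8 * z * li * c1 h (WS p a b z) +
        (8 * z + 64 * z ^ 2) * li ^ 2 * c2 h (WS p a b z)) := by
  obtain ⟨ν, hν⟩ := fermat_unit hz
  have H2 : (2 : A) * φ h = 1 := by
    have := congrArg φ hh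
    rwa [map_mul, map_ofNat, map_one] at this
  have HL : φ l = 1 - 16 * φ z := by
    rw [hl, map_sub, map_mul, map_one, map_ofNat]
  have HLI : φ l * φ li = 1 := by rw [← map_mul, hli, map_one]
  have hν' : φ (z ^ (p - 1)) = 1 + p * φ ν := by
    rw [hν, map_add, map_mul, map_one, map_natCast]
  have hzp : φ z ^ p = φ z * φ (z ^ (p - 1)) := by
    rw [← map_pow, ← map_mul, ← pow_succ', Nat.sub_add_cancel hp.out.one_le]
  have he1 := one_add_eps_pow hε 1 p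
  rw [one_mul, mul_one] at he1
  obtain ⟨x, hx, ⟨y, hy⟩, -, f0, -, -⟩ := star1A φ hp53 hn (h := φ h) (z0 := φ z * (1 + ε))
    (z1 := φ z) (e := φ (z ^ (p - 1)) * (1 + p * ε)) (ν := φ ν + ε + p * φ ν * ε)
    (l0 := φ l - 16 * φ z * ε) (l1 := φ l) (li := φ li * (1 + 16 * φ z * φ li * ε)) H2
    (by rw [mul_pow, he1, hzp]; ring)
    (by rw [hν']; ring)
    (hz.map φ)
    (by rw [HL]; ring) HL
    (by linear_combination (1 + 16 * φ z * φ li * ε - 0 * ε) * HLI -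
      (256 * φ z ^ 2 * φ li ^ 2) * hε)
  obtain ⟨x0, x1, hxd⟩ := hdec x
  obtain ⟨y0, y1, hyd⟩ := hdec y
  have hx' : φ (x0 ^ 2 * l) + φ (2 * x0 * x1 * l - 16 * z * x0 ^ 2) * ε = φ l + φ 0 * ε := by
    rw [hxd] at hx
    simp only [map_mul, map_sub, map_pow, map_ofNat, map_zero]
    linear_combination hx - (φ x1 ^ 2 * φ l - 32 * φ x0 * φ x1 * φ z - 16 * φ x1 ^ 2 * φ z * ε) * hε
  obtain ⟨e0, e1⟩ := hinj _ _ _ _ hx'
  have hx2 : x0 ^ 2 = 1 := by linear_combination li * e0 + (1 - x0 ^ 2) * hli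
  have hx1 : x1 = 8 * z * li * x0 := by
    linear_combination (h * li * x0) * e1 - (2 * h * x1 * l * li - 16 * h * z * li * x0) * hx2 -
      (2 * h * x1) * hli - (x1 - 8 * z * li * x0) * hh
  have hred : x0 = l ^ n * (1 + (p : ZMod (p ^ 3)) * y0) := by
    rw [hxd, hyd] at hy
    have h1 := congrArg ψ hy
    simp only [map_add, map_mul, map_sub, map_pow, map_one, map_natCast, hψ, hψε, mul_zero,
      add_zero, sub_zero] at h1
    exact h1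
  have hw : (φ z * (1 + ε)) ^ 2 * (φ li * (1 + 16 * φ z * φ li * ε)) ^ 3 =
      φ (z ^ 2 * li ^ 3) * (1 + φ ((2 + 16 * z) * li) * ε) := by
    have h1 := one_add_eps_pow hε 1 2
    have h2 := one_add_eps_pow hε (16 * φ z * φ li) 3
    rw [one_mul] at h1
    rw [mul_pow, mul_pow, h1, h2]
    simp only [map_mul, map_add, map_pow, map_ofNat]
    push_cast
    linear_combination (φ z ^ 2 * φ li ^ 3 * 2 * 48 * φ z * φ li) * hε +
      (φ z ^ 2 * φ li ^ 3 * ε * 2) * (φ li * HL - HLI)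
  rw [hw, gT_dual φ (by omega) hε, gS_dual φ hε, c1_gS_dual φ hε, c2_gS_dual φ hε, hxd] at f0
  set T0 := ∑ j ∈ range p, (v1 j : ZMod (p ^ 3)) * (z ^ 2 * li ^ 3) ^ j with hT0
  set T1 := ∑ j ∈ range p, (j : ZMod (p ^ 3)) * ((v1 j : ZMod (p ^ 3)) * (z ^ 2 * li ^ 3) ^ j) with hT1'
  have f0' : φ (l ^ 2 * (x0 * T0)) + φ (l ^ 2 * (x0 * ((2 + 16 * z) * li * T1) + x1 * T0)) * ε =
      φ (l ^ 2 * S0 p z 0 + 8 * z * l * c1 h (S0 p z) + (8 * z + 64 * z ^ 2) * c2 h (S0 p z)) +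
      φ (l ^ 2 * S1 p z 0 + 8 * z * l * c1 h (S1 p z) + (8 * z + 64 * z ^ 2) * c2 h (S1 p z)) * ε := by
    simp only [map_mul, map_add, map_pow, map_ofNat] at f0 ⊢
    linear_combination f0 - (φ l ^ 2 * φ x1 * ((2 + 16 * φ z) * φ li * φ T1)) * hε
  obtain ⟨g0, g1⟩ := hinj _ _ _ _ f0'
  refine ⟨x0, hx2, red_x hred, ?_⟩
  intro a b a' b' ha hb
  have hsum : ∑ j ∈ range p, (a' * (j : ZMod (p ^ 3)) + b') *
      ((v1 j : ZMod (p ^ 3)) * (z ^ 2 * li ^ 3) ^ j) = a' * T1 + b' * T0 := by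
    rw [hT0, hT1', mul_sum, mul_sum, ← sum_add_distrib]
    exact sum_congr rfl fun j _ => by ring
  rw [hsum, WS_eq, c1_WS, c2_WS]
  have hA : a * ((2 + 16 * z) * li) = a' := by linear_combination li * ha + a' * hli
  have hkey : l ^ 2 * (x0 * (a' * T1 + b' * T0)) = l ^ 2 * (a * S1 p z 0 + b * S0 p z 0) +
      8 * z * l * (a * c1 h (S1 p z) + b * c1 h (S0 p z)) +
      (8 * z + 64 * z ^ 2) * (a * c2 h (S1 p z) + b * c2 h (S0 p z)) := by
    rw [hx1] at g1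
    linear_combination a * g1 + b * g0 - (l ^ 2 * x0 * T1) * hA - (l ^ 2 * x0 * T0) * hb
  generalize a * S1 p z 0 + b * S0 p z 0 = W0 at hkey ⊢
  generalize a * c1 h (S1 p z) + b * c1 h (S0 p z) = C1 at hkey ⊢
  generalize a * c2 h (S1 p z) + b * c2 h (S0 p z) = C2 at hkey ⊢
  generalize a' * T1 + b' * T0 = Y at hkey ⊢
  linear_combination (x0 * li ^ 2) * hkey - Y * hx2 +
    (-(Y * x0 ^ 2 * (l * li + 1)) + x0 * W0 * (l * li + 1) + 8 * x0 * z * li * C1) * hli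

end

theorem E1 : S_E1 := by
  intro p n hp h z l li hp53 hn hh hz hl hli
  refine key (A := DualNumber (ZMod (p ^ 3))) (TrivSqZeroExt.inlHom (ZMod (p ^ 3)) (ZMod (p ^ 3)))
    (TrivSqZeroExt.fstHom (ZMod (p ^ 3)) (ZMod (p ^ 3)) (ZMod (p ^ 3))).toRingHom
    (ε := DualNumber.eps) (by rw [pow_two]; exact DualNumber.eps_mul_eps) (fun α => rfl) rfl
    ?_ ?_ h z l li hp53 hn hh hz hl hli
  · intro a
    refine ⟨a.fst, a.snd, ?_⟩
    apply TrivSqZeroExt.ext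
    · simp
    · simp
  · intro α β γ δ he
    have h1 := congrArg TrivSqZeroExt.fst he
    have h2 := congrArg TrivSqZeroExt.snd he
    simp at h1 h2
    exact ⟨h1, h2⟩

end Pool.Agent.H650.C9
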